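import Mathlib
import Pool.Agent.LibNW45.J7

set_option autoImplicit false

/-! Let `G₀` be an extension of a group `Γ` by an abelian group `A`, let `D` be a finitely generated
normal subgroup of infinite index of `Γ` with an abelian subgroup `D₀` of finite index, and let `M ≠ 0`
be a `D`-submodule of `A` whose translates are independent (the module induced from `M` embeds into
`A`). If `M` is torsion-free of finite rank, `D₀` acts semisimply on `M ⊗ ℚ` and only `1 ∈ D` acts
trivially on all translates of `M`, then the full group C*-algebra of every group with quotient `G₀`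
has infinite nuclear dimension. -/

namespace Pool.Agent.Results.MP_11f6fb_an.FiniteRankModules

open Pool.Agent.LibND Pool.Agent.LibNW45

universe w

theorem result {G G₀ Γ D A M : Type} [Group G] [Group G₀] [Group Γ] [Group D]
    [AddCommGroup A] [AddCommGroup M] (p : G →* G₀) (hp : Function.Surjective p)
    (α : Γ →* AddMonoid.End A) (j : Multiplicative A →* G₀) (π : G₀ →* Γ) (hext : IsExt α j π)
    (δ : D →* Γ) (hδ : Function.Injective δ) (hnorm : δ.range.Normal)
    (hinf : Infinite (Γ ⧸ δ.range)) (β : D →* AddMonoid.End M) (D₀ : Subgroup D)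
    (hM : FRS β D₀) (hne : Nontrivial M) (i : M →+ A)
    (hi : ∀ d m, i (β d m) = α (δ d) (i m)) (hind : Indep α δ i)
    (hfaith : ∀ d : D, (∀ (u : Γ) (m : M), α (δ d) (α u (i m)) = α u (i m)) → d = 1)
    {C : Type w} [CStarAlgebra C] [PartialOrder C] [StarOrderedRing C] (U : G →* unitary C)
    (hC : IsGroupCStar G C U) (n : ℕ) : ¬ NucDimLE C n :=
  frank_main p hp α j π hext δ hδ hnorm hinf β D₀ hM hne i hi hind hfaith U hC n

end Pool.Agent.Results.MP_11f6fb_an.FiniteRankModules
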