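import Mathlib
import Pool.Agent.LibNW45.I4

set_option autoImplicit false

/-! Let `G₀` be an extension of a group `Γ` by an abelian group `A`, let `D` be a subgroup of infinite
index of `Γ` and let `M` be a `D`-submodule of `A` whose translates are independent (the module
induced from `M` embeds into `A`). If `M` is not a torsion group and has a non-recurrent character,
or if `D` is a finitely generated virtually abelian group and `M` is a finitely generated faithful
torsion-free `D`-module of infinite rank all of whose proper quotients have finite rank, then the full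
group C*-algebra of every group with quotient `G₀` has infinite nuclear dimension.
For trivial `D` this is the case of free submodules of `A`. -/

namespace Pool.Agent.Results.MP_11f6fb_an.InducedModules

open Pool.Agent.LibND Pool.Agent.LibNV Pool.Agent.LibNW45

universe w

theorem result {G G₀ Γ D A M : Type} [Group G] [Group G₀] [Group Γ] [Group D]
    [AddCommGroup A] [AddCommGroup M] (p : G →* G₀) (hp : Function.Surjective p)
    (α : Γ →* AddMonoid.End A) (j : Multiplicative A →* G₀) (π : G₀ →* Γ) (hext : IsExt α j π)
    (δ : D →* Γ) (hδ : Infinite (Γ ⧸ δ.range)) (β : D →* AddMonoid.End M) (i : M →+ A)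
    (hi : ∀ d m, i (β d m) = α (δ d) (i m)) (hind : Indep α δ i)
    (hM : (NonRec β ∧ ∃ m : M, ∀ n : ℤ, n • m = 0 → n = 0) ∨ ∃ D₀ : Subgroup D, JI β D₀)
    {C : Type w} [CStarAlgebra C] [PartialOrder C] [StarOrderedRing C] (U : G →* unitary C)
    (hC : IsGroupCStar G C U) (n : ℕ) : ¬ NucDimLE C n :=
  induced_all p hp α j π hext δ hδ β i hi hind hM U hC n

end Pool.Agent.Results.MP_11f6fb_an.InducedModules
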