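import Mathlib
import Pool.Agent.LibNV.V20

set_option autoImplicit false

/-! Let `G₀` be a finitely generated group with a normal subgroup `N` and a subgroup `G₁` of finite
index such that `[G₁, G₁] ≤ N`. If some factor `γ_i(N) / γ_(i+1)(N)` of the lower central series of `N` has
infinite rank, then the full group C*-algebra of every group with quotient `G₀` has infinite nuclear
dimension. This covers all finitely generated nilpotent-by-(virtually abelian) groups of infinite Hirsch
length, hence all finitely generated elementary amenable linear groups of infinite Hirsch length. -/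

namespace Pool.Agent.Results.MP_11f6fb_an.NilpotentByAbelian

open Pool.Agent.LibND

universe w

theorem result {G₀ : Type} [Group G₀] (hfg : Group.FG G₀) (N G₁ : Subgroup G₀) [N.Normal]
    [G₁.FiniteIndex] (hQ : ∀ a ∈ G₁, ∀ b ∈ G₁, a * b * a⁻¹ * b⁻¹ ∈ N) (i : ℕ)
    (hinf : ∀ k : ℕ, ∃ a : Fin k → G₀, (∀ l, a l ∈ N.lowerCentralSeries i) ∧
      ∀ c : Fin k → ℤ, (List.ofFn fun l => a l ^ c l).prod ∈ N.lowerCentralSeries (i + 1) → c = 0)
    {G : Type} [Group G] (p : G →* G₀) (hp : Function.Surjective p)
    {C : Type w} [CStarAlgebra C] [PartialOrder C] [StarOrderedRing C] (U : G →* unitary C)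
    (hC : IsGroupCStar G C U) (n : ℕ) : ¬ NucDimLE C n :=
  Pool.Agent.LibNV.mainV hfg N G₁ hQ i hinf p hp U hC n

end Pool.Agent.Results.MP_11f6fb_an.NilpotentByAbelian
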