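import Mathlib
import Pool.Agent.LibNW45.W3
import Pool.Agent.LibNW45.W4

set_option autoImplicit false

/-! Let `H` be a group acting on an infinite set `X` and let `V` be a group which has a subgroup of
finite index with a nontrivial homomorphism to `ℝ`, for instance any infinite finitely generated
elementary amenable group. The full group C*-algebra of every group which has the restricted
permutational wreath product `V ≀_X H` as a quotient has infinite nuclear dimension. -/

namespace Pool.Agent.Results.MP_11f6fb_an.WreathProducts

open Pool.Agent.LibND Pool.Agent.LibNW45

universe u w

theorem result {G V H X : Type u} [Group G] [Group V] [Group H] [MulAction H X] [Infinite X]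
    (hV : VI V ∨ (EA V ∧ Group.FG V ∧ Infinite V))
    (p : G →* PW V H X) (hp : Function.Surjective p)
    {C : Type w} [CStarAlgebra C] [PartialOrder C] [StarOrderedRing C] (U : G →* unitary C)
    (hC : IsGroupCStar G C U) (n : ℕ) : ¬ NucDimLE C n :=
  wreath_VI (hV.elim id fun h => VI_of_EA h.1 h.2.1 h.2.2) p hp U hC n

end Pool.Agent.Results.MP_11f6fb_an.WreathProducts
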